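import Pool.Agent.Helper87.Ax.Main

/-!
Primitive axial algebras of Jordan type 1/2 generated by axes whose non-orthogonality graph
has a positive semidefinite Cartan form (simply laced Dynkin and affine diagrams).
-/

theorem Pool.Agent.Results.MP_09a508_al.DynkinAffine.result
    {F : Type*} [Field F] (h2 : (2 : F) ≠ 0)
    {A : Type*} [NonUnitalNonAssocCommRing A] [Module F A]
    [IsScalarTower F A A] [SMulCommClass F A A]
    {ι : Type*} [Fintype ι] (Γ : SimpleGraph ι) [DecidableRel Γ.Adj]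
    (hΓ : ∀ v : ι → ℤ, 0 ≤ ∑ i, v i * (2 * v i - ∑ j, if Γ.Adj i j then v j else 0))
    (a : ι → A) (ha : ∀ i, AxJ.IsHalfAxis F (a i))
    (hgen : NonUnitalAlgebra.adjoin F (Set.range a) = ⊤)
    (horth : ∀ i j, i ≠ j → ¬ Γ.Adj i j → a i * a j = 0) :
    Module.Finite F A ∧
      2 * Module.finrank F A ≤ 2 * (AxJ.roots Γ).ncard + (AxJ.pairs Γ).ncard := by
  classical
  exact AxJ.main Γ h2 ha hgen horth hΓ
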