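import Pool.Agent.Helper87.Ax.Push
import Pool.Agent.Helper87.Ax.Count

/-!
Primitive axial algebras of Jordan type 1/2 generated by axes whose non-orthogonality graph
is a forest, with a condition on the Gram values of adjacent generators.
-/

theorem Pool.Agent.Results.MP_09a508_al.ForestGram.result
    {F : Type*} [Field F] (h2 : (2 : F) ≠ 0)
    {A : Type*} [NonUnitalNonAssocCommRing A] [Module F A]
    [IsScalarTower F A A] [SMulCommClass F A A]
    {ι : Type*} [Fintype ι] (Γ : SimpleGraph ι) (hΓ : Γ.IsAcyclic)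
    (a : ι → A) (ha : ∀ i, AxJ.IsHalfAxis F (a i)) (ha0 : ∀ i, a i ≠ 0)
    (hgen : NonUnitalAlgebra.adjoin F (Set.range a) = ⊤)
    (horth : ∀ i j, i ≠ j → ¬ Γ.Adj i j → a i * a j = 0)
    (φ : ι → ι → F) (hφ : ∀ i j, Γ.Adj i j → AxJ.IsGram F (a i) (a j) (φ i j))
    (hlink : ∀ b i j k, i ≠ j → i ≠ k → j ≠ k → Γ.Adj b i → Γ.Adj b j → Γ.Adj b k →
      φ b i = 1 / 4 → φ b j = 1 / 4 → φ b k = 1 / 4 →
      ∃ u v, Relation.ReflTransGen (fun x y => Γ.Adj x y ∧ φ x y ≠ 0) b u ∧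
        Γ.Adj u v ∧ φ u v ≠ 0 ∧ φ u v ≠ 1 / 4) :
    Module.Finite F A ∧ Module.finrank F A ≤ (Fintype.card ι + 1).choose 2 := by
  classical
  have hf : ∀ i j, Γ.Adj i j → AxJ.fn h2 (ha i) (ha0 i) (a j) = φ i j := fun i j h =>
    AxJ.fn_gram h2 (ha i) (ha0 i) (hφ i j h)
  refine AxJ.forest_kill h2 ha hgen horth hΓ (AxJ.claw_zero h2 ha ha0 horth hΓ ?_)
  intro b i j k hij hik hjk hbi hbj hbk vi vj vk
  rw [hf b i hbi] at vi
  rw [hf b j hbj] at vj
  rw [hf b k hbk] at vk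
  obtain ⟨u, v, hbu, huv, h0, h4⟩ := hlink b i j k hij hik hjk hbi hbj hbk vi vj vk
  refine ⟨u, v, ?_, huv, by rw [hf u v huv]; exact h0, by rw [hf u v huv]; exact h4⟩
  exact Relation.ReflTransGen.mono
    (fun x y h => ⟨h.1, by rw [hf x y h.1]; exact h.2⟩) _ _ hbu
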